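import Pool.Agent.Hhelper89.LehmerFull.MainThm

/-!
E. Lehmer's conjecture on triples of quadratic residues: the threshold `Ω(a,b)` is finite for every
non-exceptional pair.
-/

namespace Pool.Agent.Results.MP_b311ff_nt.LehmerConjecture

open Pool.Agent.Hhelper89.Lehmer

/-- For all `0 < a < b` such that the pair `(a,b)` is not exceptional, `Ω(a,b)` is finite. -/
theorem result (a b : ℕ) (ha : 0 < a) (hab : a < b) (hne : ¬ Exceptional a b) :
    Omega a b < ⊤ :=
  Pool.Agent.Hhelper89.LehmerFull.omega_finite a b ha hab hne

end Pool.Agent.Results.MP_b311ff_nt.LehmerConjecture
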